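import Mathlib

set_option autoImplicit false

open Set Filter Topology

namespace Pool.Agent.W291.FM

/-- lower Lipschitz bound from a non-vanishing derivative -/
lemma lower_lip (q q' : ℝ → ℝ) (t t' : ℝ) (hq : ∀ x, HasDerivAt q (q' x) x) (cq : Continuous q')
    (nq : ∀ x ∈ uIcc t t', q' x ≠ 0) :
    ∃ c : ℝ, 0 < c ∧ ∀ s ∈ uIcc t t', ∀ s' ∈ uIcc t t', c * |s - s'| ≤ |q s - q s'| := by
  obtain ⟨x0, hx0, hmin⟩ := (isCompact_uIcc (a := t) (b := t')).exists_isMinOn nonempty_uIcc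
    (cq.abs.continuousOn)
  refine ⟨|q' x0|, abs_pos.2 (nq x0 hx0), ?_⟩
  have key : ∀ s ∈ uIcc t t', ∀ s' ∈ uIcc t t', s < s' → |q' x0| * |s - s'| ≤ |q s - q s'| := by
    intro s hs s' hs' hlt
    obtain ⟨ξ, hξ, he⟩ := exists_hasDerivAt_eq_slope q q' hlt
      (fun x _ => (hq x).continuousAt.continuousWithinAt) (fun x _ => hq x)
    have hξ' : ξ ∈ uIcc t t' := by
      have := uIcc_subset_uIcc hs hs'
      exact this (Icc_subset_uIcc ⟨hξ.1.le, hξ.2.le⟩)
    have h1 : |q' x0| ≤ |q' ξ| := hmin hξ'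
    have h2 : q s' - q s = q' ξ * (s' - s) := by
      rw [he]; field_simp [sub_ne_zero.2 hlt.ne']
    rw [abs_sub_comm (q s), h2, abs_mul, abs_sub_comm s]
    exact mul_le_mul_of_nonneg_right h1 (abs_nonneg _)
  intro s hs s' hs'
  rcases lt_trichotomy s s' with h | h | h
  · exact key s hs s' hs' h
  · subst h; simp
  · have := key s' hs' s hs h
    rw [abs_sub_comm s, abs_sub_comm (q s)]; exact this

/-- derivative of the change of parameter -/
lemma tau_deriv (f q f' q' τ : ℝ → ℝ) (g g' t t' : ℝ)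
    (hf : ∀ x, HasDerivAt f (f' x) x) (hq : ∀ x, HasDerivAt q (q' x) x)
    (cτ : ContinuousOn τ (Icc g g')) (nq : ∀ x ∈ uIcc t t', q' x ≠ 0)
    (hinj : ∀ x ∈ Icc g g', ∀ y ∈ Icc g g', f x = f y → x = y)
    (hτ : ∀ x ∈ Icc g g', τ x ∈ uIcc t t' ∧ q (τ x) = f x)
    (a : ℝ) (ha : a ∈ Icc g g') :
    HasDerivWithinAt τ (f' a / q' (τ a)) (Icc g g') a := by
  rw [hasDerivWithinAt_iff_tendsto_slope]
  have h1 : Tendsto (slope f a) (𝓝[Icc g g' \ {a}] a) (𝓝 (f' a)) :=
    hasDerivWithinAt_iff_tendsto_slope.1 (hf a).hasDerivWithinAt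
  have h2 : Tendsto (slope q (τ a)) (𝓝[≠] (τ a)) (𝓝 (q' (τ a))) :=
    hasDerivAt_iff_tendsto_slope.1 (hq (τ a))
  have h3 : Tendsto τ (𝓝[Icc g g' \ {a}] a) (𝓝[≠] (τ a)) := by
    refine tendsto_nhdsWithin_iff.2 ⟨?_, ?_⟩
    · exact (cτ a ha).mono_left (nhdsWithin_mono _ sdiff_subset)
    · filter_upwards [self_mem_nhdsWithin] with x hx hxe
      apply hx.2
      have : f x = f a := by rw [← (hτ x hx.1).2, ← (hτ a ha).2]; exact congrArg q hxe
      exact hinj x hx.1 a ha this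
  have h4 := h1.div (h2.comp h3) (nq _ (hτ a ha).1)
  refine h4.congr' ?_
  filter_upwards [self_mem_nhdsWithin] with x hx
  have hxa : x - a ≠ 0 := sub_ne_zero.2 hx.2
  have hne : f x ≠ f a := fun h => hx.2 (hinj x hx.1 a ha h)
  have hτn : τ x - τ a ≠ 0 := by
    intro h
    apply hne
    rw [← (hτ x hx.1).2, ← (hτ a ha).2, sub_eq_zero.1 h]
  have : f x - f a ≠ 0 := sub_ne_zero.2 hne
  have e0 : (slope f a / slope q (τ a) ∘ τ) x = slope f a x / slope q (τ a) (τ x) := rfl
  rw [e0]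
  simp only [slope_def_field, (hτ x hx.1).2, (hτ a ha).2]
  field_simp

/-- two curves `(f, p)` on `[g, g']` and `(q, r)` on `[[t, t']]` with the same end points and no
common point in between cross in opposite directions -/
lemma cross (f p q r f' p' q' r' : ℝ → ℝ) (g g' t t' : ℝ) (hg : g < g')
    (hf : ∀ x, HasDerivAt f (f' x) x) (hp : ∀ x, HasDerivAt p (p' x) x)
    (hq : ∀ x, HasDerivAt q (q' x) x) (hr : ∀ x, HasDerivAt r (r' x) x)
    (cf : Continuous f') (cq : Continuous q')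
    (nf : ∀ x ∈ Icc g g', f' x ≠ 0) (nq : ∀ x ∈ uIcc t t', q' x ≠ 0)
    (h1 : f g = q t) (h2 : f g' = q t') (h3 : p g = r t) (h4 : p g' = r t')
    (hno : ∀ x ∈ Ioo g g', ∀ s ∈ uIcc t t', f x = q s → p x ≠ r s) :
    ((p' g * q' t - r' t * f' g) / q' t) * ((p' g' * q' t' - r' t' * f' g') / q' t') ≤ 0 := by
  have hfc : Continuous f := continuous_iff_continuousAt.2 fun x => (hf x).continuousAt
  have hpc : Continuous p := continuous_iff_continuousAt.2 fun x => (hp x).continuousAt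
  have hqc : Continuous q := continuous_iff_continuousAt.2 fun x => (hq x).continuousAt
  have hrc : Continuous r := continuous_iff_continuousAt.2 fun x => (hr x).continuousAt
  obtain ⟨c, hc, hcq⟩ := lower_lip q q' t t' hq cq nq
  obtain ⟨d, hd, hdf⟩ := lower_lip f f' g g' hf cf (by rw [uIcc_of_le hg.le]; exact nf)
  rw [uIcc_of_le hg.le] at hdf
  have hinj : ∀ x ∈ Icc g g', ∀ y ∈ Icc g g', f x = f y → x = y := by
    intro x hx y hy hxy
    have := hdf x hx y hy
    rw [hxy, sub_self, abs_zero] at this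
    have h0 : |x - y| ≤ 0 := by
      by_contra hcon
      push Not at hcon
      nlinarith
    exact sub_eq_zero.1 (abs_nonpos_iff.1 h0)
  have hinjq : ∀ x ∈ uIcc t t', ∀ y ∈ uIcc t t', q x = q y → x = y := by
    intro x hx y hy hxy
    have := hcq x hx y hy
    rw [hxy, sub_self, abs_zero] at this
    have h0 : |x - y| ≤ 0 := by
      by_contra hcon
      push Not at hcon
      nlinarith
    exact sub_eq_zero.1 (abs_nonpos_iff.1 h0)
  -- f is monotone or antitone
  have hmem : ∀ x ∈ Icc g g', f x ∈ uIcc (f g) (f g') := by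
    rcases hasDerivWithinAt_forall_lt_or_forall_gt_of_forall_ne (convex_Icc g g')
      (fun x _ => (hf x).hasDerivWithinAt) (m := 0) nf with hneg | hpos
    · have hanti : StrictAntiOn f (Icc g g') := by
        apply strictAntiOn_of_deriv_neg (convex_Icc g g') hfc.continuousOn
        intro x hx
        rw [(hf x).deriv]
        exact hneg x (interior_subset hx)
      intro x hx
      rw [mem_uIcc]
      right
      exact ⟨hanti.antitoneOn hx ⟨hg.le, le_rfl⟩ hx.2, hanti.antitoneOn ⟨le_rfl, hg.le⟩ hx hx.1⟩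
    · have hmono : StrictMonoOn f (Icc g g') := by
        apply strictMonoOn_of_deriv_pos (convex_Icc g g') hfc.continuousOn
        intro x hx
        rw [(hf x).deriv]
        exact hpos x (interior_subset hx)
      intro x hx
      rw [mem_uIcc]
      left
      exact ⟨hmono.monotoneOn ⟨le_rfl, hg.le⟩ hx hx.1, hmono.monotoneOn hx ⟨hg.le, le_rfl⟩ hx.2⟩
  have hex : ∀ x : ℝ, ∃ s : ℝ, x ∈ Icc g g' → s ∈ uIcc t t' ∧ q s = f x := by
    intro x
    by_cases hx : x ∈ Icc g g'
    · have := hmem x hx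
      rw [h1, h2] at this
      obtain ⟨s, hs, hse⟩ := intermediate_value_uIcc (f := q) hqc.continuousOn this
      exact ⟨s, fun _ => ⟨hs, hse⟩⟩
    · exact ⟨0, fun h => absurd h hx⟩
  choose τ hτ using hex
  have hgm : g ∈ Icc g g' := ⟨le_rfl, hg.le⟩
  have hgm' : g' ∈ Icc g g' := ⟨hg.le, le_rfl⟩
  have hτg : τ g = t := hinjq _ (hτ g hgm).1 _ left_mem_uIcc (by rw [(hτ g hgm).2, h1])
  have hτg' : τ g' = t' := hinjq _ (hτ g' hgm').1 _ right_mem_uIcc (by rw [(hτ g' hgm').2, h2])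
  have cτ : ContinuousOn τ (Icc g g') := by
    intro x hx
    have hx1 : Tendsto (fun y => |f y - f x| / c) (𝓝[Icc g g'] x) (𝓝 0) := by
      have : Tendsto (fun y => |f y - f x| / c) (𝓝[Icc g g'] x) (𝓝 (|f x - f x| / c)) :=
        (((hfc.sub continuous_const).abs.div_const c).continuousAt.continuousWithinAt).tendsto
      simpa using this
    rw [ContinuousWithinAt, tendsto_iff_dist_tendsto_zero]
    refine squeeze_zero' (Eventually.of_forall fun y => dist_nonneg) ?_ hx1
    filter_upwards [self_mem_nhdsWithin] with y hy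
    rw [Real.dist_eq, le_div_iff₀ hc, mul_comm]
    have := hcq _ (hτ y hy).1 _ (hτ x hx).1
    rwa [(hτ y hy).2, (hτ x hx).2] at this
  set D : ℝ → ℝ := fun x => p x - r (τ x) with hD
  have cD : ContinuousOn D (Icc g g') :=
    hpc.continuousOn.sub (hrc.comp_continuousOn cτ)
  have Dg : D g = 0 := by simp only [hD, hτg, h3, sub_self]
  have Dg' : D g' = 0 := by simp only [hD, hτg', h4, sub_self]
  have Dne : ∀ x ∈ Ioo g g', D x ≠ 0 := by
    intro x hx h
    have hx' : x ∈ Icc g g' := ⟨hx.1.le, hx.2.le⟩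
    exact hno x hx (τ x) (hτ x hx').1 (hτ x hx').2.symm (sub_eq_zero.1 h)
  have hder : ∀ a ∈ Icc g g', HasDerivWithinAt D ((p' a * q' (τ a) - r' (τ a) * f' a) / q' (τ a))
      (Icc g g') a := by
    intro a ha
    have e1 := tau_deriv f q f' q' τ g g' t t' hf hq cτ nq hinj hτ a ha
    have e2 := (hr (τ a)).comp_hasDerivWithinAt a e1
    have e3 := (hp a).hasDerivWithinAt.sub e2 (s := Icc g g')
    refine e3.congr_deriv ?_
    have := nq _ (hτ a ha).1
    field_simp
  have d1 := hder g hgm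
  have d2 := hder g' hgm'
  rw [hτg] at d1
  rw [hτg'] at d2
  -- sign of the derivatives
  rw [hasDerivWithinAt_iff_tendsto_slope] at d1 d2
  have nb1 : (𝓝[Icc g g' \ {g}] g).NeBot := by
    rw [Icc_sdiff_left]
    exact left_nhdsWithin_Ioc_neBot hg
  have nb2 : (𝓝[Icc g g' \ {g'}] g').NeBot := by
    rw [Icc_sdiff_right]
    exact right_nhdsWithin_Ico_neBot hg
  have sgn : (∀ x ∈ Ioo g g', 0 < D x) ∨ (∀ x ∈ Ioo g g', D x < 0) := by
    by_contra hcon
    push Not at hcon
    obtain ⟨⟨x, hx, hx0⟩, y, hy, hy0⟩ := hcon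
    have hsub : uIcc x y ⊆ Ioo g g' := by
      intro z hz
      rw [mem_uIcc] at hz
      rcases hz with hz | hz
      · exact ⟨lt_of_lt_of_le hx.1 hz.1, lt_of_le_of_lt hz.2 hy.2⟩
      · exact ⟨lt_of_lt_of_le hy.1 hz.1, lt_of_le_of_lt hz.2 hx.2⟩
    have hc0 : (0:ℝ) ∈ uIcc (D x) (D y) := by
      rw [mem_uIcc]; left; exact ⟨hx0, hy0⟩
    obtain ⟨z, hz, hz0⟩ := intermediate_value_uIcc (f := D)
      (cD.mono (hsub.trans Ioo_subset_Icc_self)) hc0
    exact Dne z (hsub hz) hz0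
  rcases sgn with hs | hs
  · have s1 : 0 ≤ (p' g * q' t - r' t * f' g) / q' t := by
      refine ge_of_tendsto d1 ?_
      filter_upwards [self_mem_nhdsWithin] with x hx
      rw [slope_def_field, Dg, sub_zero]
      have hxg : g < x := lt_of_le_of_ne hx.1.1 (Ne.symm hx.2)
      rcases eq_or_lt_of_le hx.1.2 with h | h
      · rw [h, Dg', zero_div]
      · exact div_nonneg (hs x ⟨hxg, h⟩).le (sub_nonneg.2 hxg.le)
    have s2 : (p' g' * q' t' - r' t' * f' g') / q' t' ≤ 0 := by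
      refine le_of_tendsto d2 ?_
      filter_upwards [self_mem_nhdsWithin] with x hx
      rw [slope_def_field, Dg', sub_zero]
      have hxg : x < g' := lt_of_le_of_ne hx.1.2 hx.2
      rcases eq_or_lt_of_le hx.1.1 with h | h
      · rw [← h, Dg, zero_div]
      · exact div_nonpos_of_nonneg_of_nonpos (hs x ⟨h, hxg⟩).le (sub_nonpos.2 hxg.le)
    exact mul_nonpos_of_nonneg_of_nonpos s1 s2
  · have s1 : (p' g * q' t - r' t * f' g) / q' t ≤ 0 := by
      refine le_of_tendsto d1 ?_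
      filter_upwards [self_mem_nhdsWithin] with x hx
      rw [slope_def_field, Dg, sub_zero]
      have hxg : g < x := lt_of_le_of_ne hx.1.1 (Ne.symm hx.2)
      rcases eq_or_lt_of_le hx.1.2 with h | h
      · rw [h, Dg', zero_div]
      · exact div_nonpos_of_nonpos_of_nonneg (hs x ⟨hxg, h⟩).le (sub_nonneg.2 hxg.le)
    have s2 : 0 ≤ (p' g' * q' t' - r' t' * f' g') / q' t' := by
      refine ge_of_tendsto d2 ?_
      filter_upwards [self_mem_nhdsWithin] with x hx
      rw [slope_def_field, Dg', sub_zero]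
      have hxg : x < g' := lt_of_le_of_ne hx.1.2 hx.2
      rcases eq_or_lt_of_le hx.1.1 with h | h
      · rw [← h, Dg, zero_div]
      · exact div_nonneg_of_nonpos (hs x ⟨h, hxg⟩).le (sub_nonpos.2 hxg.le)
    exact mul_nonpos_of_nonpos_of_nonneg s1 s2

end Pool.Agent.W291.FM
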