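import Mathlib
import Pool.Agent.W745.Fib.Stm
import Pool.Agent.W291.FM.Cross

/-!
Bounded multiplicity (part FM-K2 of the project of helper745).
-/

set_option autoImplicit false

open Polynomial Set Filter Topology

namespace Pool.Agent.W291.FM

open Pool.Agent.W745.Fib Pool.Agent.W811.Stu

lemma dE_ne (hDi : SDi) {lam : ℝ} (hl : lam ≠ 0) {n : ℕ} (hn : 1 ≤ n) {E : ℝ}
    (hE : |tr lam n E| ≤ 1) : dE lam n E ≠ 0 := by
  have h1 : 1 < cc (lam / 2) := one_lt_cc (div_ne_zero hl two_ne_zero)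
  obtain ⟨C, hC, H⟩ := hDi lam hl 1 one_pos h1
  obtain ⟨u, v, huE, hEv, huv, hb, hends⟩ := (H n hn).2 E hE
  intro h0
  have a := ((H n hn).1 E u (fun e he => hb e (by
    rw [uIcc_of_ge huE] at he
    exact ⟨he.1, he.2.trans hEv⟩))).2.2
  have b := ((H n hn).1 E v (fun e he => hb e (by
    rw [uIcc_of_le hEv] at he
    exact ⟨huE.trans he.1, he.2⟩))).2.2
  rw [h0, abs_zero, mul_zero, mul_zero] at a b
  have a' := sub_eq_zero.1 (abs_nonpos_iff.1 a)
  have b' := sub_eq_zero.1 (abs_nonpos_iff.1 b)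
  rcases hends with h | h
  · rw [h.1] at a'; rw [h.2] at b'; linarith
  · rw [h.1] at a'; rw [h.2] at b'; linarith

lemma lip_of (f f' h h' : ℝ → ℝ) (a b L : ℝ) (hf : ∀ x, HasDerivAt f (f' x) x)
    (hh : ∀ x, HasDerivAt h (h' x) x) (nf : ∀ x ∈ Icc a b, f' x ≠ 0)
    (hL : ∀ x ∈ Icc a b, |h' x| ≤ L * |f' x|) :
    ∀ x ∈ Icc a b, ∀ y ∈ Icc a b, |h x - h y| ≤ L * |f x - f y| := by
  have key : ∀ x ∈ Icc a b, ∀ y ∈ Icc a b, x < y → |h x - h y| ≤ L * |f x - f y| := by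
    intro x hx y hy hxy
    obtain ⟨c, hc, he⟩ := exists_ratio_hasDerivAt_eq_ratio_slope f f' hxy
      (fun z _ => (hf z).continuousAt.continuousWithinAt) (fun z _ => hf z) h h'
      (fun z _ => (hh z).continuousAt.continuousWithinAt) (fun z _ => hh z)
    have hcm : c ∈ Icc a b := ⟨hx.1.trans hc.1.le, hc.2.le.trans hy.2⟩
    have h1 : |h x - h y| * |f' c| = |f x - f y| * |h' c| := by
      rw [abs_sub_comm (h x), abs_sub_comm (f x), ← abs_mul, ← abs_mul, he]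
    have h2 := hL c hcm
    have h3 : 0 < |f' c| := abs_pos.2 (nf c hcm)
    have h4 : |h x - h y| * |f' c| ≤ (L * |f x - f y|) * |f' c| := by
      rw [h1]
      calc |f x - f y| * |h' c| ≤ |f x - f y| * (L * |f' c|) :=
            mul_le_mul_of_nonneg_left h2 (abs_nonneg _)
        _ = _ := by ring
    exact le_of_mul_le_mul_right h4 h3
  intro x hx y hy
  rcases lt_trichotomy x y with h0 | h0 | h0
  · exact key x hx y hy h0
  · subst h0; simp
  · have := key y hy x hx h0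
    rw [abs_sub_comm (h x), abs_sub_comm (f x)]; exact this

/-- values and derivatives of the neighbouring polynomials on a band -/
lemma band (hRt : SRt) (hBd : SBd) {lam : ℝ} (hl : lam ≠ 0) :
    ∃ B : ℝ, 1 ≤ B ∧ ∀ k : ℕ, ∀ E : ℝ, |tr lam (k + 3) E| ≤ 1 →
      |tr lam (k + 1) E| ≤ B ∧ |tr lam (k + 2) E| ≤ B ∧ |tr lam (k + 4) E| ≤ B ∧
      |tr lam (k + 5) E| ≤ B ∧
      |dE lam (k + 1) E| ≤ B * |dE lam (k + 3) E| ∧ |dE lam (k + 2) E| ≤ B * |dE lam (k + 3) E| ∧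
      |dE lam (k + 4) E| ≤ B * |dE lam (k + 3) E| ∧
      |dE lam (k + 5) E| ≤ B * |dE lam (k + 3) E| := by
  obtain ⟨C0, hC0, H0⟩ := hBd lam hl
  have h1 : 1 < cc (lam / 2) := one_lt_cc (div_ne_zero hl two_ne_zero)
  obtain ⟨C1, hC1, H1⟩ := hRt lam hl 1 zero_le_one h1
  refine ⟨3 * C0 + 3 * C1 * (1 + C0), by nlinarith, ?_⟩
  intro k E hE
  have b := (H0 (k + 3) (by omega) E hE).1
  have b1 := b (k + 1) (by omega)
  have b2 := b (k + 2) (by omega)
  have b4 := b (k + 4) (by omega)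
  obtain ⟨d2, d4⟩ := H1 (k + 3) (by omega) E hE
  rw [show k + 3 - 1 = k + 2 by omega] at d2 d4
  rw [show k + 3 + 1 = k + 4 by omega] at d4
  have hD : 0 ≤ |dE lam (k + 3) E| := abs_nonneg _
  set D := |dE lam (k + 3) E| with hDdef
  have hCD : 0 ≤ C1 * D := by positivity
  have hCD0 : 0 ≤ C1 * C0 * D := by positivity
  have hC0D : 0 ≤ C0 * D := by positivity
  have d4' : |dE lam (k + 4) E| ≤ C1 * (1 + C0) * D := by
    refine d4.trans ?_
    have : C1 * (1 + |tr lam (k + 2) E|) ≤ C1 * (1 + C0) := by nlinarith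
    exact mul_le_mul_of_nonneg_right this hD
  have r5 : tr lam (k + 5) E = 2 * tr lam (k + 4) E * tr lam (k + 3) E - tr lam (k + 2) E :=
    tr_rec lam (k + 2) E
  have s5 : dE lam (k + 5) E = 2 * dE lam (k + 4) E * tr lam (k + 3) E +
      2 * tr lam (k + 4) E * dE lam (k + 3) E - dE lam (k + 2) E := dE_rec lam (k + 2) E
  have s4 : dE lam (k + 4) E = 2 * dE lam (k + 3) E * tr lam (k + 2) E +
      2 * tr lam (k + 3) E * dE lam (k + 2) E - dE lam (k + 1) E := dE_rec lam (k + 1) E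
  have t5 : |tr lam (k + 5) E| ≤ 3 * C0 := by
    rw [r5]
    have e1 : |2 * tr lam (k + 4) E * tr lam (k + 3) E| ≤ 2 * C0 := by
      rw [abs_mul, abs_mul, abs_two]
      have := mul_le_mul b4 hE (abs_nonneg _) (by linarith)
      linarith
    have := abs_sub (2 * tr lam (k + 4) E * tr lam (k + 3) E) (tr lam (k + 2) E)
    linarith
  have e3 : |2 * tr lam (k + 3) E * dE lam (k + 2) E| ≤ 2 * (C1 * D) := by
    rw [abs_mul, abs_mul, abs_two]
    have := mul_le_mul hE d2 (abs_nonneg _) zero_le_one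
    linarith
  have e4 : |2 * dE lam (k + 3) E * tr lam (k + 2) E| ≤ 2 * (C0 * D) := by
    rw [abs_mul, abs_mul, abs_two]
    have := mul_le_mul (le_refl D) b2 (abs_nonneg _) hD
    rw [← hDdef]; linarith
  have e5 : |2 * dE lam (k + 4) E * tr lam (k + 3) E| ≤ 2 * (C1 * (1 + C0) * D) := by
    rw [abs_mul, abs_mul, abs_two]
    have := mul_le_mul d4' hE (abs_nonneg _) (le_trans (abs_nonneg _) d4')
    linarith
  have e6 : |2 * tr lam (k + 4) E * dE lam (k + 3) E| ≤ 2 * (C0 * D) := by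
    rw [abs_mul, abs_mul, abs_two]
    have := mul_le_mul b4 (le_refl D) hD (by linarith : (0:ℝ) ≤ C0)
    rw [← hDdef]; linarith
  have q1 : |dE lam (k + 1) E| ≤ 2 * (C0 * D) + 2 * (C1 * D) + C1 * (1 + C0) * D := by
    have : dE lam (k + 1) E = 2 * dE lam (k + 3) E * tr lam (k + 2) E +
      2 * tr lam (k + 3) E * dE lam (k + 2) E - dE lam (k + 4) E := by rw [s4]; ring
    rw [this]
    refine (abs_sub _ _).trans ?_
    have := abs_add_le (2 * dE lam (k + 3) E * tr lam (k + 2) E)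
      (2 * tr lam (k + 3) E * dE lam (k + 2) E)
    linarith
  have q5 : |dE lam (k + 5) E| ≤ 2 * (C1 * (1 + C0) * D) + 2 * (C0 * D) + C1 * D := by
    rw [s5]
    refine (abs_sub _ _).trans ?_
    have := abs_add_le (2 * dE lam (k + 4) E * tr lam (k + 3) E)
      (2 * tr lam (k + 4) E * dE lam (k + 3) E)
    linarith
  have hCC : 0 ≤ C1 * C0 := by positivity
  have eB : 3 * C0 + 3 * C1 * (1 + C0) = 3 * C0 + 3 * C1 + 3 * (C1 * C0) := by ring
  have eBD : (3 * C0 + 3 * C1 * (1 + C0)) * D = 3 * (C0 * D) + 3 * (C1 * D) + 3 * (C1 * C0 * D) := by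
    ring
  have eD : C1 * (1 + C0) * D = C1 * D + C1 * C0 * D := by ring
  rw [eD] at d4' q1 q5
  have b1' : |tr lam (k + 1) E| ≤ C0 := b1
  rw [eB]
  refine ⟨by linarith, by linarith, by linarith, by linarith, ?_, ?_, ?_, ?_⟩
  · rw [← eB, eBD]; linarith
  · rw [← eB, eBD]; linarith
  · rw [← eB, eBD]; linarith
  · rw [← eB, eBD]; linarith

/-- reading the reversed orbit -/
lemma coinc (lam lam' e s : ℝ) (k m : ℕ) (h0 : tr lam k e = tr lam' (m + 2) s)
    (h1 : tr lam (k + 1) e = tr lam' (m + 1) s) (h2 : tr lam (k + 2) e = tr lam' m s) :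
    tr lam (k + (m + 2)) e = 1 ∧ dl lam (k + (m + 2)) e = lam' ∧ dt lam (k + (m + 2)) e = s := by
  induction m generalizing k with
  | zero =>
    have e1 : tr lam (k + 3) e = 2 * tr lam (k + 2) e * tr lam (k + 1) e - tr lam k e :=
      tr_rec lam k e
    rw [tr_two] at h0
    rw [zero_add, tr_one] at h1
    rw [tr_zero] at h2
    refine ⟨by simpa using h2, ?_, ?_⟩
    · unfold dl
      rw [show k + (0 + 2) + 1 = k + 3 by ring, show k + (0 + 2) - 1 = k + 1 by omega, e1, h0, h1,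
        h2]
      ring
    · unfold dt
      rw [show k + (0 + 2) - 1 = k + 1 by omega, h1]
      ring
  | succ m ih =>
    have e1 : tr lam (k + 3) e = 2 * tr lam (k + 2) e * tr lam (k + 1) e - tr lam k e :=
      tr_rec lam k e
    have e2 : tr lam' (m + 3) s = 2 * tr lam' (m + 2) s * tr lam' (m + 1) s - tr lam' m s :=
      tr_rec lam' m s
    have := ih (k + 1) (by rw [h1]) (by rw [show k + 1 + 1 = k + 2 by ring, h2])
      (by rw [show k + 1 + 2 = k + 3 by ring, e1, h2, h1, h0,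
            show m + 1 + 2 = m + 3 by ring, e2, show m + 1 + 1 = m + 2 by ring]; ring)
    rw [show k + (m + 1 + 2) = k + 1 + (m + 2) by ring]
    exact this

/-- on the surface two of the coordinates and the sign of the partial derivative determine the
third coordinate -/
lemma third {δ y z x1 x2 : ℝ} (h1 : x1 ^ 2 + y ^ 2 + z ^ 2 - 2 * x1 * y * z = 1 + δ ^ 2)
    (h2 : x2 ^ 2 + y ^ 2 + z ^ 2 - 2 * x2 * y * z = 1 + δ ^ 2)
    (hs : 0 < (x1 - y * z) * (x2 - y * z)) : x1 = x2 := by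
  have h3 : (x1 - x2) * ((x1 - y * z) + (x2 - y * z)) = 0 := by linear_combination h1 - h2
  rcases mul_eq_zero.1 h3 with h | h
  · linarith
  · exfalso
    have : x2 - y * z = -(x1 - y * z) := by linarith
    rw [this] at hs
    nlinarith [sq_nonneg (x1 - y * z)]

/-- the two partial derivatives are not both small -/
lemma notboth {δ B : ℝ} (hδ : δ ≠ 0) (hB : 1 ≤ B) : ∃ ε : ℝ, 0 < ε ∧ ∀ x y z : ℝ,
    x ^ 2 + y ^ 2 + z ^ 2 - 2 * x * y * z = 1 + δ ^ 2 → |z| ≤ 1 → |y| ≤ B →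
    ε ≤ |x - y * z| ∨ ε ≤ |y - x * z| := by
  have hδ2 : 0 < δ ^ 2 := by positivity
  refine ⟨min 1 (δ ^ 2 / (2 * (1 + 2 * B))), lt_min one_pos (by positivity), ?_⟩
  intro x y z h hz hy
  by_contra hcon
  push Not at hcon
  obtain ⟨c1, c2⟩ := hcon
  set ε := min 1 (δ ^ 2 / (2 * (1 + 2 * B))) with hε
  have hε1 : ε ≤ 1 := min_le_left _ _
  have hε2 : ε ≤ δ ^ 2 / (2 * (1 + 2 * B)) := min_le_right _ _
  have hε0 : 0 < ε := lt_min one_pos (by positivity)
  have hε3 : ε * (1 + 2 * B) < δ ^ 2 := by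
    have : ε * (2 * (1 + 2 * B)) ≤ δ ^ 2 := by
      rwa [le_div_iff₀ (by positivity)] at hε2
    nlinarith
  have e1 : (x - y * z) ^ 2 = δ ^ 2 + (1 - z ^ 2) - y * ((y - x * z) + z * (x - y * z)) := by
    linear_combination h
  have hz2 : z ^ 2 ≤ 1 := by
    rw [← sq_abs]; nlinarith [abs_nonneg z]
  have e2 : |y * ((y - x * z) + z * (x - y * z))| ≤ B * (2 * ε) := by
    rw [abs_mul]
    have a1 := abs_add_le (y - x * z) (z * (x - y * z))
    have a2 : |z * (x - y * z)| ≤ 1 * |x - y * z| := by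
      rw [abs_mul]; exact mul_le_mul_of_nonneg_right hz (abs_nonneg _)
    exact mul_le_mul hy (by linarith) (abs_nonneg _) (by linarith)
  have e3 := (abs_le.1 e2).2
  have e4 : (x - y * z) ^ 2 < ε ^ 2 := by
    rw [← sq_abs]; nlinarith [abs_nonneg (x - y * z)]
  nlinarith

lemma gvar {B h x y z x' y' z' : ℝ} (hB : 1 ≤ B) (hy : |y| ≤ B) (hz : |z'| ≤ 1)
    (hzz : |z - z'| ≤ h) (hyy : |y - y'| ≤ B * h) (hxx : |x - x'| ≤ B * h) :
    |(x - y * z) - (x' - y' * z')| ≤ 3 * B * h := by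
  have e : (x - y * z) - (x' - y' * z') = (x - x') - (y * (z - z') + (y - y') * z') := by ring
  rw [e]
  have a1 := abs_sub (x - x') (y * (z - z') + (y - y') * z')
  have a2 := abs_add_le (y * (z - z')) ((y - y') * z')
  have a3 : |y * (z - z')| ≤ B * h := by
    rw [abs_mul]; exact mul_le_mul hy hzz (abs_nonneg _) (by linarith)
  have a4 : |(y - y') * z'| ≤ B * h * 1 := by
    rw [abs_mul]
    exact mul_le_mul hyy hz (abs_nonneg _) (le_trans (abs_nonneg _) hyy)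
  linarith

lemma same_sign {a b ε : ℝ} (ha : ε ≤ |a|) (hab : |a - b| < ε) : 0 < a * b := by
  rcases abs_cases a with ⟨h, h0⟩ | ⟨h, h0⟩ <;> rcases abs_lt.1 hab with ⟨h1, h2⟩
  · have : 0 < b := by linarith
    have ha0 : 0 < a := by linarith [abs_nonneg (a - b)]
    positivity
  · have : b < 0 := by linarith
    exact mul_pos_of_neg_of_neg h0 this

/-- the set of the statement -/
def AA (lam lam' : ℝ) (k m : ℕ) (u v u' v' : ℝ) : Set ℝ :=
  {g : ℝ | g ∈ Set.Icc u v ∧ tr lam (k + m) g = 1 ∧ dl lam (k + m) g = lam' ∧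
    dt lam (k + m) g ∈ Set.Icc u' v'}

lemma band2 (hRt : SRt) (hBd : SBd) {lam : ℝ} (hl : lam ≠ 0) :
    ∃ B : ℝ, 1 ≤ B ∧ ∀ l : ℝ, (l = lam ∨ l = -lam) → ∀ k : ℕ, ∀ E : ℝ, |tr l (k + 3) E| ≤ 1 →
      |tr l (k + 1) E| ≤ B ∧ |tr l (k + 2) E| ≤ B ∧ |tr l (k + 4) E| ≤ B ∧
      |tr l (k + 5) E| ≤ B ∧
      |dE l (k + 1) E| ≤ B * |dE l (k + 3) E| ∧ |dE l (k + 2) E| ≤ B * |dE l (k + 3) E| ∧
      |dE l (k + 4) E| ≤ B * |dE l (k + 3) E| ∧
      |dE l (k + 5) E| ≤ B * |dE l (k + 3) E| := by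
  obtain ⟨B1, h1, H1⟩ := band hRt hBd hl
  obtain ⟨B2, h2, H2⟩ := band hRt hBd (neg_ne_zero.2 hl)
  refine ⟨max B1 B2, h1.trans (le_max_left _ _), ?_⟩
  have key : ∀ (B l : ℝ), B ≤ max B1 B2 → (∀ k : ℕ, ∀ E : ℝ, |tr l (k + 3) E| ≤ 1 →
      |tr l (k + 1) E| ≤ B ∧ |tr l (k + 2) E| ≤ B ∧ |tr l (k + 4) E| ≤ B ∧
      |tr l (k + 5) E| ≤ B ∧
      |dE l (k + 1) E| ≤ B * |dE l (k + 3) E| ∧ |dE l (k + 2) E| ≤ B * |dE l (k + 3) E| ∧
      |dE l (k + 4) E| ≤ B * |dE l (k + 3) E| ∧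
      |dE l (k + 5) E| ≤ B * |dE l (k + 3) E|) → (∀ k : ℕ, ∀ E : ℝ, |tr l (k + 3) E| ≤ 1 →
      |tr l (k + 1) E| ≤ max B1 B2 ∧ |tr l (k + 2) E| ≤ max B1 B2 ∧
      |tr l (k + 4) E| ≤ max B1 B2 ∧
      |tr l (k + 5) E| ≤ max B1 B2 ∧
      |dE l (k + 1) E| ≤ max B1 B2 * |dE l (k + 3) E| ∧
      |dE l (k + 2) E| ≤ max B1 B2 * |dE l (k + 3) E| ∧
      |dE l (k + 4) E| ≤ max B1 B2 * |dE l (k + 3) E| ∧
      |dE l (k + 5) E| ≤ max B1 B2 * |dE l (k + 3) E|) := by
    intro B l hB H k E hE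
    obtain ⟨a1, a2, a3, a4, a5, a6, a7, a8⟩ := H k E hE
    have hm : B * |dE l (k + 3) E| ≤ max B1 B2 * |dE l (k + 3) E| :=
      mul_le_mul_of_nonneg_right hB (abs_nonneg _)
    exact ⟨a1.trans hB, a2.trans hB, a3.trans hB, a4.trans hB, a5.trans hm, a6.trans hm,
      a7.trans hm, a8.trans hm⟩
  intro l hl'
  rcases hl' with rfl | rfl
  · exact key B1 _ (le_max_left _ _) H1
  · exact key B2 _ (le_max_right _ _) H2

lemma sgn_prod {a l N K M N' K' M' G G' : ℝ} (c1 : 0 < a * l * N * K * M)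
    (c2 : 0 < a * l * N' * K' * M') (hK : 0 < K * K') (hG : 0 < G * G') :
    0 < ((a * (N / l) * G) / M) * ((a * (N' / l) * G') / M') := by
  have hl : l ≠ 0 := by rintro rfl; simp at c1
  have hM : M ≠ 0 := by rintro rfl; simp at c1
  have hM' : M' ≠ 0 := by rintro rfl; simp at c2
  have hK1 : K ≠ 0 := by rintro rfl; simp at c1
  have hK2 : K' ≠ 0 := by rintro rfl; simp at c2
  have e : ((a * (N / l) * G) / M) * ((a * (N' / l) * G') / M') =
      ((a * l * N * K * M) * (a * l * N' * K' * M') * (G * G') * (K * K')) /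
        (l ^ 2 * M * M' * K * K') ^ 2 := by
    field_simp
  rw [e]
  have : 0 < (l ^ 2 * M * M' * K * K') ^ 2 := by positivity
  positivity

/-- the facts at one element -/
lemma atpt (hDu : SDu) (hSg : SSg) {lam lam' u v u' v' g : ℝ} {k m : ℕ} (hl : lam ≠ 0)
    (hk : ∀ e ∈ Icc u v, |tr lam (k + 3) e| ≤ 1)
    (hg : g ∈ AA lam lam' (k + 3) (m + 3) u v u' v') :
    ∃ t ∈ Icc u' v', tr lam' (m + 3) t = tr lam (k + 3) g ∧ tr lam' (m + 2) t = tr lam (k + 4) g ∧
      tr lam' (m + 1) t = tr lam (k + 5) g ∧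
      dE lam (k + 4) g * dE lam' (m + 3) t - dE lam' (m + 2) t * dE lam (k + 3) g =
        -((-1) ^ (m + 3) * (dE lam (k + 3 + (m + 3)) g / lam') *
          (tr lam (k + 5) g - tr lam (k + 4) g * tr lam (k + 3) g)) ∧
      dE lam (k + 5) g * dE lam' (m + 3) t - dE lam' (m + 1) t * dE lam (k + 3) g =
        ((-1) ^ (m + 3) * (dE lam (k + 3 + (m + 3)) g / lam') *
          (tr lam (k + 4) g - tr lam (k + 5) g * tr lam (k + 3) g)) ∧
      0 < (-1) ^ (m + 3) * lam' * dE lam (k + 3 + (m + 3)) g * dE lam (k + 3) g *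
        dE lam' (m + 3) t := by
  obtain ⟨hguv, h1, hdl, hdt⟩ := hg
  obtain ⟨-, H2, H3⟩ := hDu lam g (k + 3 + (m + 3)) (by omega) h1
  have H4 := hSg lam hl (k + 3) (m + 3) (by omega) (by omega) g h1 (hk g hguv)
  obtain ⟨E1, E2⟩ := H3 hl (k + 3) (m + 3) (by omega) rfl
  rw [hdl] at H2 H4 E1 E2
  refine ⟨dt lam (k + 3 + (m + 3)) g, hdt, ?_, ?_, ?_, ?_, ?_, H4⟩
  · have := H2 (m + 3) (by omega)
    rwa [show k + 3 + (m + 3) - (m + 3) = k + 3 by omega] at this
  · have := H2 (m + 2) (by omega)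
    rwa [show k + 3 + (m + 3) - (m + 2) = k + 4 by omega] at this
  · have := H2 (m + 1) (by omega)
    rwa [show k + 3 + (m + 3) - (m + 1) = k + 5 by omega] at this
  · rw [show m + 3 - 1 = m + 2 by omega, show k + 3 + 1 = k + 4 by ring,
      show k + 3 + 2 = k + 5 by ring] at E1
    linear_combination -E1
  · rw [show m + 3 - 2 = m + 1 by omega, show k + 3 + 1 = k + 4 by ring,
      show k + 3 + 2 = k + 5 by ring] at E2
    linear_combination E2

lemma prod_pos {G a b : ℝ} (h1 : 0 < G * a) (h2 : 0 < G * b) : 0 < a * b := by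
  have h3 : 0 < (G * a) * (G * b) := mul_pos h1 h2
  have h4 : (G * a) * (G * b) = G ^ 2 * (a * b) := by ring
  rw [h4] at h3
  exact pos_of_mul_pos_right h3 (sq_nonneg G)

lemma const_sign (hDi : SDi) {lam : ℝ} (hl : lam ≠ 0) {n : ℕ} (hn : 1 ≤ n) {u v : ℝ}
    (hk : ∀ e ∈ Icc u v, |tr lam n e| ≤ 1) :
    (∀ x ∈ Icc u v, dE lam n x < 0) ∨ (∀ x ∈ Icc u v, 0 < dE lam n x) :=
  hasDerivWithinAt_forall_lt_or_forall_gt_of_forall_ne (convex_Icc u v)
    (fun x _ => (hasDeriv_tr lam n x).hasDerivWithinAt) (m := 0)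
    (fun x hx => dE_ne hDi hl hn (hk x hx))

lemma between (hDi : SDi) {lam : ℝ} (hl : lam ≠ 0) {n : ℕ} (hn : 1 ≤ n) {u v : ℝ}
    (hk : ∀ e ∈ Icc u v, |tr lam n e| ≤ 1) {a b x : ℝ} (ha : a ∈ Icc u v) (hb : b ∈ Icc u v)
    (hx : x ∈ Icc a b) : |tr lam n a - tr lam n x| ≤ |tr lam n a - tr lam n b| := by
  have hxm : x ∈ Icc u v := ⟨ha.1.trans hx.1, hx.2.trans hb.2⟩
  rcases const_sign hDi hl hn hk with h | h
  · have hanti : StrictAntiOn (tr lam n) (Icc u v) := by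
      apply strictAntiOn_of_deriv_neg (convex_Icc u v) (cont_tr lam n).continuousOn
      intro y hy
      rw [(hasDeriv_tr lam n y).deriv]
      exact h y (interior_subset hy)
    have e1 := hanti.antitoneOn ha hxm hx.1
    have e2 := hanti.antitoneOn hxm hb hx.2
    rw [abs_of_nonneg (by linarith), abs_of_nonneg (by linarith)]
    linarith
  · have hmono : StrictMonoOn (tr lam n) (Icc u v) := by
      apply strictMonoOn_of_deriv_pos (convex_Icc u v) (cont_tr lam n).continuousOn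
      intro y hy
      rw [(hasDeriv_tr lam n y).deriv]
      exact h y (interior_subset hy)
    have e1 := hmono.monotoneOn ha hxm hx.1
    have e2 := hmono.monotoneOn hxm hb hx.2
    rw [abs_of_nonpos (by linarith), abs_of_nonpos (by linarith)]
    linarith

/-- consecutive elements are far apart -/
lemma gap (hDu : SDu) (hSg : SSg) (hRt : SRt) (hDi : SDi) (hBd : SBd) {lam : ℝ} (hl : lam ≠ 0) :
    ∃ h0 : ℝ, 0 < h0 ∧ ∀ k m : ℕ, ∀ u v u' v' lam' : ℝ, (lam' = lam ∨ lam' = -lam) →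
      (∀ e ∈ Icc u v, |tr lam (k + 3) e| ≤ 1) → (∀ e ∈ Icc u' v', |tr lam' (m + 3) e| ≤ 1) →
      ∀ g g' : ℝ, g ∈ AA lam lam' (k + 3) (m + 3) u v u' v' →
      g' ∈ AA lam lam' (k + 3) (m + 3) u v u' v' → g < g' →
      (∀ x ∈ Ioo g g', x ∉ AA lam lam' (k + 3) (m + 3) u v u' v') →
      h0 ≤ |tr lam (k + 3) g - tr lam (k + 3) g'| := by
  obtain ⟨B, hB, HB⟩ := band2 hRt hBd hl
  have hδ : lam / 2 ≠ 0 := div_ne_zero hl two_ne_zero
  obtain ⟨ε, hε, Hε⟩ := notboth hδ hB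
  refine ⟨ε / (3 * B), by positivity, ?_⟩
  intro k m u v u' v' lam' hl' hk hm g g' hg hg' hgg hno
  by_contra hcon
  push Not at hcon
  set h := |tr lam (k + 3) g - tr lam (k + 3) g'| with hh
  have hh0 : 0 ≤ h := abs_nonneg _
  have hsmall : 3 * B * h < ε := by
    rw [lt_div_iff₀ (by positivity)] at hcon
    linarith
  have hl0' : lam' ≠ 0 := by
    rcases hl' with rfl | rfl
    · exact hl
    · exact neg_ne_zero.2 hl
  have hsq : (lam' / 2) ^ 2 = (lam / 2) ^ 2 := by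
    rcases hl' with rfl | rfl
    · rfl
    · ring
  obtain ⟨t, ht, a0, a1, a2, b1, b2, c⟩ := atpt hDu hSg hl hk hg
  obtain ⟨t', ht', a0', a1', a2', b1', b2', c'⟩ := atpt hDu hSg hl hk hg'
  have hguv := hg.1
  have hguv' := hg'.1
  have hsub : Icc g g' ⊆ Icc u v := Icc_subset_Icc hguv.1 hguv'.2
  have hsubt : uIcc t t' ⊆ Icc u' v' := uIcc_subset_Icc ht ht'
  have nf : ∀ x ∈ Icc u v, dE lam (k + 3) x ≠ 0 := fun x hx => dE_ne hDi hl (by omega) (hk x hx)
  have nq : ∀ x ∈ Icc u' v', dE lam' (m + 3) x ≠ 0 := fun x hx =>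
    dE_ne hDi hl0' (by omega) (hm x hx)
  -- Lipschitz bounds
  have L4 := lip_of (tr lam (k + 3)) (dE lam (k + 3)) (tr lam (k + 4)) (dE lam (k + 4)) u v B
    (hasDeriv_tr lam _) (hasDeriv_tr lam _) nf
    (fun x hx => (HB lam (Or.inl rfl) k x (hk x hx)).2.2.2.2.2.2.1)
  have L5 := lip_of (tr lam (k + 3)) (dE lam (k + 3)) (tr lam (k + 5)) (dE lam (k + 5)) u v B
    (hasDeriv_tr lam _) (hasDeriv_tr lam _) nf
    (fun x hx => (HB lam (Or.inl rfl) k x (hk x hx)).2.2.2.2.2.2.2)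
  have L2 := lip_of (tr lam' (m + 3)) (dE lam' (m + 3)) (tr lam' (m + 2)) (dE lam' (m + 2)) u' v' B
    (hasDeriv_tr lam' _) (hasDeriv_tr lam' _) nq
    (fun x hx => (HB lam' hl' m x (hm x hx)).2.2.2.2.2.1)
  have L1 := lip_of (tr lam' (m + 3)) (dE lam' (m + 3)) (tr lam' (m + 1)) (dE lam' (m + 1)) u' v' B
    (hasDeriv_tr lam' _) (hasDeriv_tr lam' _) nq
    (fun x hx => (HB lam' hl' m x (hm x hx)).2.2.2.2.1)
  -- bounds at g
  have bg := HB lam (Or.inl rfl) k g (hk g hguv)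
  have surf : ∀ e : ℝ, tr lam (k + 5) e ^ 2 + tr lam (k + 4) e ^ 2 + tr lam (k + 3) e ^ 2
      - 2 * tr lam (k + 5) e * tr lam (k + 4) e * tr lam (k + 3) e = 1 + (lam / 2) ^ 2 :=
    fun e => onS lam e (k + 3)
  have surf' : ∀ s : ℝ, tr lam' (m + 3) s ^ 2 + tr lam' (m + 2) s ^ 2 + tr lam' (m + 1) s ^ 2
      - 2 * tr lam' (m + 3) s * tr lam' (m + 2) s * tr lam' (m + 1) s = 1 + (lam / 2) ^ 2 := by
    intro s
    rw [← hsq]
    exact onS lam' s (m + 1)
  -- variation along the two curves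
  have var : ∀ e ∈ Icc g g', |tr lam (k + 3) g - tr lam (k + 3) e| ≤ h ∧
      |tr lam (k + 4) g - tr lam (k + 4) e| ≤ B * h ∧
      |tr lam (k + 5) g - tr lam (k + 5) e| ≤ B * h := by
    intro e he
    have v0 : |tr lam (k + 3) g - tr lam (k + 3) e| ≤ h :=
      between hDi hl (by omega) hk hguv hguv' he
    have v1 := L4 g hguv e (hsub he)
    have v2 := L5 g hguv e (hsub he)
    have v3 : B * |tr lam (k + 3) g - tr lam (k + 3) e| ≤ B * h :=
      mul_le_mul_of_nonneg_left v0 (by linarith)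
    exact ⟨v0, v1.trans v3, v2.trans v3⟩
  have var' : ∀ e ∈ Icc g g', ∀ s ∈ uIcc t t', tr lam (k + 3) e = tr lam' (m + 3) s →
      |tr lam (k + 3) g - tr lam' (m + 3) s| ≤ h ∧
      |tr lam (k + 4) g - tr lam' (m + 2) s| ≤ B * h ∧
      |tr lam (k + 5) g - tr lam' (m + 1) s| ≤ B * h := by
    intro e he s hs hes
    have v0 : |tr lam (k + 3) g - tr lam' (m + 3) s| ≤ h := by
      rw [← hes]; exact (var e he).1
    have v1 := L2 t ht s (hsubt hs)
    have v2 := L1 t ht s (hsubt hs)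
    rw [a0, a1] at v1
    rw [a0, a2] at v2
    have v3 : B * |tr lam (k + 3) g - tr lam' (m + 3) s| ≤ B * h :=
      mul_le_mul_of_nonneg_left v0 (by linarith)
    exact ⟨v0, v1.trans v3, v2.trans v3⟩
  have hgm : g ∈ Icc g g' := ⟨le_rfl, hgg.le⟩
  have hgm' : g' ∈ Icc g g' := ⟨hgg.le, le_rfl⟩
  have hKK : 0 < dE lam (k + 3) g * dE lam (k + 3) g' := by
    rcases const_sign hDi hl (n := k + 3) (by omega) hk with hs | hs
    · exact mul_pos_of_neg_of_neg (hs g hguv) (hs g' hguv')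
    · exact mul_pos (hs g hguv) (hs g' hguv')
  -- a common point of the curves is an element of the set
  have hcoin : ∀ e ∈ Ioo g g', ∀ s ∈ uIcc t t', tr lam (k + 3) e = tr lam' (m + 3) s →
      tr lam (k + 4) e = tr lam' (m + 2) s → tr lam (k + 5) e = tr lam' (m + 1) s → False := by
    intro e he s hs e0 e1 e2
    obtain ⟨q1, q2, q3⟩ := coinc lam lam' e s (k + 3) (m + 1) e0 e1 e2
    refine hno e he ⟨hsub ⟨he.1.le, he.2.le⟩, q1, q2, ?_⟩
    have q3' : dt lam (k + 3 + (m + 3)) e = s := q3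
    rw [q3']
    exact hsubt hs
  rcases Hε (tr lam (k + 5) g) (tr lam (k + 4) g) (tr lam (k + 3) g) (surf g) (hk g hguv)
    bg.2.2.1 with hc | hc
  · -- case 1
    have sg : ∀ e ∈ Icc g g', 0 < (tr lam (k + 5) g - tr lam (k + 4) g * tr lam (k + 3) g) *
        (tr lam (k + 5) e - tr lam (k + 4) e * tr lam (k + 3) e) := by
      intro e he
      obtain ⟨v0, v1, v2⟩ := var e he
      exact same_sign hc (lt_of_le_of_lt (gvar hB bg.2.2.1 (hk e (hsub he)) v0 v1 v2) hsmall)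
    have sg' : ∀ e ∈ Icc g g', ∀ s ∈ uIcc t t', tr lam (k + 3) e = tr lam' (m + 3) s →
        0 < (tr lam (k + 5) g - tr lam (k + 4) g * tr lam (k + 3) g) *
        (tr lam' (m + 1) s - tr lam' (m + 2) s * tr lam' (m + 3) s) := by
      intro e he s hs hes
      obtain ⟨v0, v1, v2⟩ := var' e he s hs hes
      exact same_sign hc (lt_of_le_of_lt (gvar hB bg.2.2.1 (hm s (hsubt hs)) v0 v1 v2) hsmall)
    have hno' : ∀ e ∈ Ioo g g', ∀ s ∈ uIcc t t', tr lam (k + 3) e = tr lam' (m + 3) s →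
        tr lam (k + 4) e ≠ tr lam' (m + 2) s := by
      intro e he s hs e0 e1
      have he' : e ∈ Icc g g' := ⟨he.1.le, he.2.le⟩
      have p1 := sg e he'
      have p2 := sg' e he' s hs e0
      have p3 := prod_pos p1 p2
      rw [← e0, ← e1] at p3
      have s1 := surf e
      have s2 := surf' s
      rw [← e0, ← e1] at s2
      have e2 := third s1 (by linear_combination s2) p3
      exact hcoin e he s hs e0 e1 e2
    have hX := cross (tr lam (k + 3)) (tr lam (k + 4)) (tr lam' (m + 3)) (tr lam' (m + 2))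
      (dE lam (k + 3)) (dE lam (k + 4)) (dE lam' (m + 3)) (dE lam' (m + 2)) g g' t t' hgg
      (hasDeriv_tr lam _) (hasDeriv_tr lam _) (hasDeriv_tr lam' _) (hasDeriv_tr lam' _)
      (cont_dE lam _) (cont_dE lam' _) (fun x hx => nf x (hsub hx)) (fun x hx => nq x (hsubt hx))
      a0.symm a0'.symm a1.symm a1'.symm hno'
    rw [b1, b1'] at hX
    have hpos := sgn_prod c c' hKK (sg g' hgm')
    have e : ∀ a b c d : ℝ, (-a / b) * (-c / d) = (a / b) * (c / d) := by intros; ring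
    rw [e] at hX
    linarith
  · -- case 2
    have sg : ∀ e ∈ Icc g g', 0 < (tr lam (k + 4) g - tr lam (k + 5) g * tr lam (k + 3) g) *
        (tr lam (k + 4) e - tr lam (k + 5) e * tr lam (k + 3) e) := by
      intro e he
      obtain ⟨v0, v1, v2⟩ := var e he
      exact same_sign hc (lt_of_le_of_lt (gvar hB bg.2.2.2.1 (hk e (hsub he)) v0 v2 v1) hsmall)
    have sg' : ∀ e ∈ Icc g g', ∀ s ∈ uIcc t t', tr lam (k + 3) e = tr lam' (m + 3) s →
        0 < (tr lam (k + 4) g - tr lam (k + 5) g * tr lam (k + 3) g) *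
        (tr lam' (m + 2) s - tr lam' (m + 1) s * tr lam' (m + 3) s) := by
      intro e he s hs hes
      obtain ⟨v0, v1, v2⟩ := var' e he s hs hes
      exact same_sign hc (lt_of_le_of_lt (gvar hB bg.2.2.2.1 (hm s (hsubt hs)) v0 v2 v1) hsmall)
    have hno' : ∀ e ∈ Ioo g g', ∀ s ∈ uIcc t t', tr lam (k + 3) e = tr lam' (m + 3) s →
        tr lam (k + 5) e ≠ tr lam' (m + 1) s := by
      intro e he s hs e0 e2
      have he' : e ∈ Icc g g' := ⟨he.1.le, he.2.le⟩
      have p1 := sg e he'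
      have p2 := sg' e he' s hs e0
      have p3 := prod_pos p1 p2
      rw [← e0, ← e2] at p3
      have s1 := surf e
      have s2 := surf' s
      rw [← e0, ← e2] at s2
      have e1 := third (x1 := tr lam (k + 4) e) (x2 := tr lam' (m + 2) s)
        (y := tr lam (k + 5) e) (z := tr lam (k + 3) e) (δ := lam / 2)
        (by linear_combination s1) (by linear_combination s2) p3
      exact hcoin e he s hs e0 e1 e2
    have hX := cross (tr lam (k + 3)) (tr lam (k + 5)) (tr lam' (m + 3)) (tr lam' (m + 1))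
      (dE lam (k + 3)) (dE lam (k + 5)) (dE lam' (m + 3)) (dE lam' (m + 1)) g g' t t' hgg
      (hasDeriv_tr lam _) (hasDeriv_tr lam _) (hasDeriv_tr lam' _) (hasDeriv_tr lam' _)
      (cont_dE lam _) (cont_dE lam' _) (fun x hx => nf x (hsub hx)) (fun x hx => nq x (hsubt hx))
      a0.symm a0'.symm a2.symm a2'.symm hno'
    rw [b2, b2'] at hX
    have hpos := sgn_prod c c' hKK (sg g' hgm')
    linarith

/-- finiteness -/
lemma AA_finite (lam lam' : ℝ) (k m : ℕ) (hk : 1 ≤ k) (u v u' v' : ℝ) :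
    (AA lam lam' k m u v u' v').Finite := by
  have hne : P lam (k + m) - C 1 ≠ 0 := by
    intro h
    have h1 : P lam (k + m) = C 1 := sub_eq_zero.1 h
    have h2 := natDegree_P lam (k + m)
    rw [h1, natDegree_C] at h2
    have : 0 < Nat.fib (k + m) := Nat.fib_pos.2 (by omega)
    omega
  refine (Polynomial.finite_setOfPred_isRoot hne).subset ?_
  intro g hg
  have : tr lam (k + m) g = 1 := hg.2.1
  simp only [mem_ofPred_eq, IsRoot, eval_sub, eval_C]
  unfold tr at this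
  rw [this, sub_self]

/-- all elements are far apart -/
lemma gap_all {lam lam' h0 u v u' v' : ℝ} {k m : ℕ} (hDi : SDi) (hl : lam ≠ 0)
    (hk : ∀ e ∈ Icc u v, |tr lam (k + 3) e| ≤ 1)
    (H : ∀ g g' : ℝ, g ∈ AA lam lam' (k + 3) (m + 3) u v u' v' →
      g' ∈ AA lam lam' (k + 3) (m + 3) u v u' v' → g < g' →
      (∀ x ∈ Ioo g g', x ∉ AA lam lam' (k + 3) (m + 3) u v u' v') →
      h0 ≤ |tr lam (k + 3) g - tr lam (k + 3) g'|) (g g' : ℝ)
    (hg : g ∈ AA lam lam' (k + 3) (m + 3) u v u' v')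
    (hg' : g' ∈ AA lam lam' (k + 3) (m + 3) u v u' v') (hgg : g < g') :
    h0 ≤ |tr lam (k + 3) g - tr lam (k + 3) g'| := by
  have hfin := AA_finite lam lam' (k + 3) (m + 3) (by omega) u v u' v'
  have hS : (AA lam lam' (k + 3) (m + 3) u v u' v' ∩ Ioc g g').Finite := hfin.inter_of_left _
  obtain ⟨w, hw, hmin⟩ := Set.exists_min_image _ (fun x => x) hS ⟨g', hg', hgg, le_rfl⟩
  have h1 := H g w hg hw.1 hw.2.1 (by
    intro x hx hxA
    have := hmin x ⟨hxA, hx.1, hx.2.le.trans hw.2.2⟩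
    exact absurd hx.2 (not_lt.2 this))
  exact h1.trans (between hDi hl (by omega) hk hg.1 hg'.1 ⟨hw.2.1.le, hw.2.2⟩)

theorem k2 (hDu : SDu) (hSg : SSg) (hRt : SRt) (hDi : SDi) (hBd : SBd) : SK2 := by
  intro lam hl
  obtain ⟨h0, hh0, H⟩ := gap hDu hSg hRt hDi hBd hl
  refine ⟨⌊2 / h0⌋₊ + 1, ?_⟩
  intro k m hk6 hm3 u v u' v' lam' huv huv' hl' hk hm
  obtain ⟨k, rfl⟩ : ∃ j, k = j + 3 := ⟨k - 3, by omega⟩
  obtain ⟨m, rfl⟩ : ∃ j, m = j + 3 := ⟨m - 3, by omega⟩
  change (AA lam lam' (k + 3) (m + 3) u v u' v').ncard ≤ _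
  have hfin := AA_finite lam lam' (k + 3) (m + 3) (by omega) u v u' v'
  have hgap := gap_all hDi hl hk (H k m u v u' v' lam' hl' hk hm)
  -- the numbering
  let φ : ℝ → ℕ := fun g => ⌊(tr lam (k + 3) g + 1) / h0⌋₊
  have hval : ∀ g ∈ AA lam lam' (k + 3) (m + 3) u v u' v', 0 ≤ (tr lam (k + 3) g + 1) / h0 ∧
      (tr lam (k + 3) g + 1) / h0 ≤ 2 / h0 := by
    intro g hg
    have := abs_le.1 (hk g hg.1)
    exact ⟨div_nonneg (by linarith) hh0.le, div_le_div_of_nonneg_right (by linarith) hh0.le⟩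
  have hmaps : Set.MapsTo φ (AA lam lam' (k + 3) (m + 3) u v u' v')
      (Finset.range (⌊2 / h0⌋₊ + 1) : Set ℕ) := by
    intro g hg
    rw [Finset.mem_coe, Finset.mem_range, Nat.lt_succ_iff]
    exact Nat.floor_le_floor (hval g hg).2
  have hinj : Set.InjOn φ (AA lam lam' (k + 3) (m + 3) u v u' v') := by
    have key : ∀ g ∈ AA lam lam' (k + 3) (m + 3) u v u' v',
        ∀ g' ∈ AA lam lam' (k + 3) (m + 3) u v u' v', g < g' → φ g ≠ φ g' := by
      intro g hg g' hg' hlt he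
      have h1 := hgap g g' hg hg' hlt
      have a1 := Nat.floor_le (hval g hg).1
      have a2 := Nat.lt_floor_add_one ((tr lam (k + 3) g + 1) / h0)
      have b1 := Nat.floor_le (hval g' hg').1
      have b2 := Nat.lt_floor_add_one ((tr lam (k + 3) g' + 1) / h0)
      have he' : ⌊(tr lam (k + 3) g + 1) / h0⌋₊ = ⌊(tr lam (k + 3) g' + 1) / h0⌋₊ := he
      rw [he'] at a1 a2
      have c1 : (tr lam (k + 3) g + 1) / h0 - (tr lam (k + 3) g' + 1) / h0 =
          (tr lam (k + 3) g - tr lam (k + 3) g') / h0 := by ring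
      have c2 : |(tr lam (k + 3) g - tr lam (k + 3) g') / h0| < 1 := by
        rw [← c1, abs_lt]; constructor <;> linarith
      rw [abs_div, abs_of_pos hh0, div_lt_one hh0] at c2
      linarith
    intro g hg g' hg' he
    by_contra hne
    rcases lt_or_gt_of_ne hne with h | h
    · exact key g hg g' hg' h he
    · exact key g' hg' g hg h he.symm
  have := Set.ncard_le_ncard_of_injOn φ hmaps hinj (Finset.finite_toSet _)
  rwa [Set.ncard_coe_finset, Finset.card_range] at this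

end Pool.Agent.W291.FM
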